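import Mathlib

open Set MeasureTheory Filter Topology

namespace Pool.Agent.Helper86.Stationary

/-- The Lorentz product `-dx₀² + dx₁² + dx₂² + dx₃²` on `ℝ⁴`. -/
def lor (a b : Fin 4 → ℝ) : ℝ := -(a 0 * b 0) + a 1 * b 1 + a 2 * b 2 + a 3 * b 3

/-- Partial derivative with respect to the first coordinate `s` of the plane. -/
noncomputable def pS {V : Type} [NormedAddCommGroup V] [NormedSpace ℝ V]
    (f : ℝ × ℝ → V) (p : ℝ × ℝ) : V := deriv (fun s => f (s, p.2)) p.1

/-- Partial derivative with respect to the second coordinate `t` of the plane. -/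
noncomputable def pT {V : Type} [NormedAddCommGroup V] [NormedSpace ℝ V]
    (f : ℝ × ℝ → V) (p : ℝ × ℝ) : V := deriv (fun t => f (p.1, t)) p.2

/-- Coefficient `E` of the induced metric. -/
noncomputable def cE (x : ℝ × ℝ → Fin 4 → ℝ) (p : ℝ × ℝ) : ℝ := lor (pS x p) (pS x p)

/-- Coefficient `F` of the induced metric. -/
noncomputable def cF (x : ℝ × ℝ → Fin 4 → ℝ) (p : ℝ × ℝ) : ℝ := lor (pS x p) (pT x p)

/-- Coefficient `G` of the induced metric. -/
noncomputable def cG (x : ℝ × ℝ → Fin 4 → ℝ) (p : ℝ × ℝ) : ℝ := lor (pT x p) (pT x p)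

/-- The induced metric `E ds² + 2 F ds dt + G dt²` at `p`, on the tangent vector `v`. -/
noncomputable def firstForm (x : ℝ × ℝ → Fin 4 → ℝ) (p v : ℝ × ℝ) : ℝ :=
  cE x p * v.1 ^ 2 + 2 * cF x p * v.1 * v.2 + cG x p * v.2 ^ 2

/-- The determinant `EG - F²` of the induced metric. -/
noncomputable def detI (x : ℝ × ℝ → Fin 4 → ℝ) (p : ℝ × ℝ) : ℝ :=
  cE x p * cG x p - cF x p ^ 2

/-- Component of `w` tangent to the surface, i.e. in the span of the two partial derivatives. -/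
noncomputable def tangentPart (x : ℝ × ℝ → Fin 4 → ℝ) (p : ℝ × ℝ) (w : Fin 4 → ℝ) : Fin 4 → ℝ :=
  (detI x p)⁻¹ • ((cG x p * lor w (pS x p) - cF x p * lor w (pT x p)) • pS x p
    + (cE x p * lor w (pT x p) - cF x p * lor w (pS x p)) • pT x p)

/-- Half the trace, with respect to the induced metric, of the second derivatives of `x`. -/
noncomputable def halfTrace (x : ℝ × ℝ → Fin 4 → ℝ) (p : ℝ × ℝ) : Fin 4 → ℝ :=
  (2 * detI x p)⁻¹ • (cG x p • pS (pS x) p - (2 * cF x p) • pS (pT x) p + cE x p • pT (pT x) p)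

/-- The mean curvature vector: the normal component of the half trace of the second
derivatives, i.e. half the trace of the second fundamental form. -/
noncomputable def meanCurvature (x : ℝ × ℝ → Fin 4 → ℝ) (p : ℝ × ℝ) : Fin 4 → ℝ :=
  halfTrace x p - tangentPart x p (halfTrace x p)

/-- The Gaussian curvature of the induced metric, by Brioschi's formula. -/
noncomputable def gaussK (x : ℝ × ℝ → Fin 4 → ℝ) (p : ℝ × ℝ) : ℝ :=
  (Matrix.det !![-(1 / 2) * pT (pT (cE x)) p + pS (pT (cF x)) p - (1 / 2) * pS (pS (cG x)) p,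
        (1 / 2) * pS (cE x) p, pS (cF x) p - (1 / 2) * pT (cE x) p;
      pT (cF x) p - (1 / 2) * pS (cG x) p, cE x p, cF x p;
      (1 / 2) * pT (cG x) p, cF x p, cG x p]
    - Matrix.det !![0, (1 / 2) * pT (cE x) p, (1 / 2) * pS (cG x) p;
      (1 / 2) * pT (cE x) p, cE x p, cF x p;
      (1 / 2) * pS (cG x) p, cF x p, cG x p]) / detI x p ^ 2

/-- `x` restricted to `U` is a stationary surface: `U` is a connected open set of the plane,
`x` is smooth on `U`, the induced metric is positive definite (so `x` is a spacelike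
immersion) and the mean curvature vector vanishes. -/
structure IsStationary (U : Set (ℝ × ℝ)) (x : ℝ × ℝ → Fin 4 → ℝ) : Prop where
  isOpen : IsOpen U
  isConnected : IsConnected U
  smooth : ContDiffOn ℝ (⊤ : ℕ∞) x U
  spacelike : ∀ p ∈ U, ∀ v : ℝ × ℝ, v ≠ 0 → 0 < firstForm x p v
  stationary : ∀ p ∈ U, meanCurvature x p = 0

/-- `M` is homeomorphic to a compact connected surface `N` with exactly `k` points removed. -/
def IsCompactMinus (M : Type) [TopologicalSpace M] (k : ℕ) : Prop :=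
  ∃ (N : Type) (_ : TopologicalSpace N),
    T2Space N ∧ CompactSpace N ∧ ConnectedSpace N ∧
    Nonempty (ChartedSpace (EuclideanSpace ℝ (Fin 2)) N) ∧
    ∃ S : Finset N, S.card = k ∧ Nonempty (M ≃ₜ {y : N // y ∉ S})

/-- Length, in the induced metric, of the curve `γ` over `[0, 1]`. -/
noncomputable def curveLength (x : ℝ × ℝ → Fin 4 → ℝ) (γ : ℝ → ℝ × ℝ) : ℝ :=
  ∫ τ in (0 : ℝ)..1, Real.sqrt (firstForm x (γ τ) (deriv γ τ))

/-- The induced distance in `U` of `a` and `b` is less than `ε`: some `C¹` curve in `U` from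
`a` to `b` has length less than `ε`. -/
def DistLT (U : Set (ℝ × ℝ)) (x : ℝ × ℝ → Fin 4 → ℝ) (a b : ℝ × ℝ) (ε : ℝ) : Prop :=
  ∃ γ : ℝ → ℝ × ℝ, ContDiff ℝ 1 γ ∧ (∀ τ ∈ Icc (0 : ℝ) 1, γ τ ∈ U) ∧ γ 0 = a ∧ γ 1 = b ∧
    curveLength x γ < ε

/-- The induced metric on `U` is complete: every sequence in `U` which is Cauchy for the
induced distance converges to a point of `U`. -/
def IsMetricComplete (U : Set (ℝ × ℝ)) (x : ℝ × ℝ → Fin 4 → ℝ) : Prop :=
  ∀ u : ℕ → ℝ × ℝ, (∀ n, u n ∈ U) →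
    (∀ ε > 0, ∃ N : ℕ, ∀ m ≥ N, ∀ n ≥ N, DistLT U x (u m) (u n) ε) →
    ∃ p ∈ U, Tendsto u atTop (𝓝 p)

/-- The total curvature `∫ |K| dM`, with `dM = (EG - F²)^(1/2) ds dt`. -/
noncomputable def totalAbsCurvature (U : Set (ℝ × ℝ)) (x : ℝ × ℝ → Fin 4 → ℝ) : ENNReal :=
  ∫⁻ p in U, ENNReal.ofReal (|gaussK x p| * Real.sqrt (detI x p))

end Pool.Agent.Helper86.Stationary
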