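import Pool.Agent.Helper86.Stationary.Defs

open Set MeasureTheory Filter Topology

namespace Pool.Agent.Helper86.Stationary

/-- The punctured plane. -/
def U0 : Set (ℝ × ℝ) := {p | p ≠ 0}

noncomputable def q (p : ℝ × ℝ) : ℝ := p.1 ^ 2 + p.2 ^ 2

theorem q_pos {p : ℝ × ℝ} (hp : p ∈ U0) : 0 < q p := by
  obtain ⟨s, t⟩ := p
  by_contra h
  simp only [q] at h
  have h1 : s ^ 2 = 0 := by nlinarith [sq_nonneg s, sq_nonneg t]
  have h2 : t ^ 2 = 0 := by nlinarith [sq_nonneg s, sq_nonneg t]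
  apply hp
  simp only [pow_eq_zero_iff, ne_eq, OfNat.ofNat_ne_zero, not_false_eq_true] at h1 h2
  simp [h1, h2]

theorem mem_U0_iff {p : ℝ × ℝ} : p ∈ U0 ↔ 0 < q p := by
  refine ⟨q_pos, ?_⟩
  intro h hp
  rw [hp] at h
  simp [q] at h

theorem isOpen_U0 : IsOpen U0 := isOpen_ne

/-- The surface. -/
noncomputable def X (p : ℝ × ℝ) : Fin 4 → ℝ :=
  ![(p.1 ^ 2 - p.2 ^ 2) / 4,
    p.1 * (3 / 2) + p.1 / (p.1 ^ 2 + p.2 ^ 2),
    p.2 * (1 / 2) + p.2 / (p.1 ^ 2 + p.2 ^ 2),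
    (p.1 ^ 2 - p.2 ^ 2) / 4 - Real.log (p.1 ^ 2 + p.2 ^ 2)]

noncomputable def Xs (p : ℝ × ℝ) : Fin 4 → ℝ :=
  ![p.1 / 2,
    3 / 2 + (p.2 ^ 2 - p.1 ^ 2) / (p.1 ^ 2 + p.2 ^ 2) ^ 2,
    -(2 * p.1 * p.2) / (p.1 ^ 2 + p.2 ^ 2) ^ 2,
    p.1 / 2 - 2 * p.1 / (p.1 ^ 2 + p.2 ^ 2)]

noncomputable def Xt (p : ℝ × ℝ) : Fin 4 → ℝ :=
  ![-p.2 / 2,
    -(2 * p.1 * p.2) / (p.1 ^ 2 + p.2 ^ 2) ^ 2,
    1 / 2 + (p.1 ^ 2 - p.2 ^ 2) / (p.1 ^ 2 + p.2 ^ 2) ^ 2,
    -p.2 / 2 - 2 * p.2 / (p.1 ^ 2 + p.2 ^ 2)]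

noncomputable def Xss (p : ℝ × ℝ) : Fin 4 → ℝ :=
  ![1 / 2,
    (2 * p.1 ^ 3 - 6 * p.1 * p.2 ^ 2) / (p.1 ^ 2 + p.2 ^ 2) ^ 3,
    (6 * p.1 ^ 2 * p.2 - 2 * p.2 ^ 3) / (p.1 ^ 2 + p.2 ^ 2) ^ 3,
    1 / 2 - (2 * p.2 ^ 2 - 2 * p.1 ^ 2) / (p.1 ^ 2 + p.2 ^ 2) ^ 2]

theorem hasDerivAt_Xs {s t : ℝ} (h : s ^ 2 + t ^ 2 ≠ 0) :
    HasDerivAt (fun s => X (s, t)) (Xs (s, t)) s := by
  have h1 : HasDerivAt (fun s : ℝ => s) 1 s := hasDerivAt_id' s
  have h2 : HasDerivAt (fun s : ℝ => s ^ 2) (2 * s) s := by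
    simpa using hasDerivAt_pow 2 s
  have hq : HasDerivAt (fun s : ℝ => s ^ 2 + t ^ 2) (2 * s) s := h2.add_const _
  rw [hasDerivAt_pi]
  intro i
  fin_cases i
  · change HasDerivAt (fun s => (s ^ 2 - t ^ 2) / 4) (s / 2) s
    exact ((h2.sub_const (t ^ 2)).div_const 4).congr_deriv (by ring)
  · change HasDerivAt (fun s => s * (3 / 2) + s / (s ^ 2 + t ^ 2))
      (3 / 2 + (t ^ 2 - s ^ 2) / (s ^ 2 + t ^ 2) ^ 2) s
    exact ((h1.mul_const (3 / 2)).fun_add (h1.fun_div hq h)).congr_deriv (by ring)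
  · change HasDerivAt (fun s => t * (1 / 2) + t / (s ^ 2 + t ^ 2))
      (-(2 * s * t) / (s ^ 2 + t ^ 2) ^ 2) s
    exact ((hasDerivAt_const s (t * (1 / 2))).fun_add
      ((hasDerivAt_const s t).fun_div hq h)).congr_deriv (by ring)
  · change HasDerivAt (fun s => (s ^ 2 - t ^ 2) / 4 - Real.log (s ^ 2 + t ^ 2))
      (s / 2 - 2 * s / (s ^ 2 + t ^ 2)) s
    exact (((h2.sub_const (t ^ 2)).div_const 4).fun_sub (hq.log h)).congr_deriv (by ring)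

theorem hasDerivAt_Xt {s t : ℝ} (h : s ^ 2 + t ^ 2 ≠ 0) :
    HasDerivAt (fun t => X (s, t)) (Xt (s, t)) t := by
  have h1 : HasDerivAt (fun t : ℝ => t) 1 t := hasDerivAt_id' t
  have h2 : HasDerivAt (fun t : ℝ => t ^ 2) (2 * t) t := by
    simpa using hasDerivAt_pow 2 t
  have hq : HasDerivAt (fun t : ℝ => s ^ 2 + t ^ 2) (2 * t) t := h2.const_add _
  rw [hasDerivAt_pi]
  intro i
  fin_cases i
  · change HasDerivAt (fun t => (s ^ 2 - t ^ 2) / 4) (-t / 2) t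
    exact ((h2.const_sub (s ^ 2)).div_const 4).congr_deriv (by ring)
  · change HasDerivAt (fun t => s * (3 / 2) + s / (s ^ 2 + t ^ 2))
      (-(2 * s * t) / (s ^ 2 + t ^ 2) ^ 2) t
    exact ((hasDerivAt_const t (s * (3 / 2))).fun_add
      ((hasDerivAt_const t s).fun_div hq h)).congr_deriv (by ring)
  · change HasDerivAt (fun t => t * (1 / 2) + t / (s ^ 2 + t ^ 2))
      (1 / 2 + (s ^ 2 - t ^ 2) / (s ^ 2 + t ^ 2) ^ 2) t
    exact ((h1.mul_const (1 / 2)).fun_add (h1.fun_div hq h)).congr_deriv (by ring)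
  · change HasDerivAt (fun t => (s ^ 2 - t ^ 2) / 4 - Real.log (s ^ 2 + t ^ 2))
      (-t / 2 - 2 * t / (s ^ 2 + t ^ 2)) t
    exact (((h2.const_sub (s ^ 2)).div_const 4).fun_sub (hq.log h)).congr_deriv (by ring)

theorem hasDerivAt_Xss {s t : ℝ} (h : s ^ 2 + t ^ 2 ≠ 0) :
    HasDerivAt (fun s => Xs (s, t)) (Xss (s, t)) s := by
  have h1 : HasDerivAt (fun s : ℝ => s) 1 s := hasDerivAt_id' s
  have h2 : HasDerivAt (fun s : ℝ => s ^ 2) (2 * s) s := by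
    simpa using hasDerivAt_pow 2 s
  have hq : HasDerivAt (fun s : ℝ => s ^ 2 + t ^ 2) (2 * s) s := h2.add_const _
  have hq2 : HasDerivAt (fun s : ℝ => (s ^ 2 + t ^ 2) ^ 2) (2 * (s ^ 2 + t ^ 2) * (2 * s)) s := by
    simpa using hq.fun_pow 2
  rw [hasDerivAt_pi]
  intro i
  fin_cases i
  · change HasDerivAt (fun s => s / 2) (1 / 2) s
    exact h1.div_const 2
  · change HasDerivAt (fun s => 3 / 2 + (t ^ 2 - s ^ 2) / (s ^ 2 + t ^ 2) ^ 2)
      ((2 * s ^ 3 - 6 * s * t ^ 2) / (s ^ 2 + t ^ 2) ^ 3) s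
    exact (((h2.const_sub (t ^ 2)).fun_div hq2 (pow_ne_zero 2 h)).const_add (3 / 2)).congr_deriv
      (by field_simp; ring)
  · change HasDerivAt (fun s => -(2 * s * t) / (s ^ 2 + t ^ 2) ^ 2)
      ((6 * s ^ 2 * t - 2 * t ^ 3) / (s ^ 2 + t ^ 2) ^ 3) s
    exact (((((h1.const_mul 2).mul_const t).fun_neg).fun_div hq2 (pow_ne_zero 2 h))).congr_deriv
      (by field_simp; ring)
  · change HasDerivAt (fun s => s / 2 - 2 * s / (s ^ 2 + t ^ 2))
      (1 / 2 - (2 * t ^ 2 - 2 * s ^ 2) / (s ^ 2 + t ^ 2) ^ 2) s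
    exact ((h1.div_const 2).fun_sub ((h1.const_mul 2).fun_div hq h)).congr_deriv (by ring)

theorem hasDerivAt_Xtt {s t : ℝ} (h : s ^ 2 + t ^ 2 ≠ 0) :
    HasDerivAt (fun t => Xt (s, t)) (-Xss (s, t)) t := by
  have h1 : HasDerivAt (fun t : ℝ => t) 1 t := hasDerivAt_id' t
  have h2 : HasDerivAt (fun t : ℝ => t ^ 2) (2 * t) t := by
    simpa using hasDerivAt_pow 2 t
  have hq : HasDerivAt (fun t : ℝ => s ^ 2 + t ^ 2) (2 * t) t := h2.const_add _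
  have hq2 : HasDerivAt (fun t : ℝ => (s ^ 2 + t ^ 2) ^ 2) (2 * (s ^ 2 + t ^ 2) * (2 * t)) t := by
    simpa using hq.fun_pow 2
  rw [hasDerivAt_pi]
  intro i
  fin_cases i
  · change HasDerivAt (fun t => -t / 2) (-(1 / 2)) t
    exact (h1.fun_neg.div_const 2).congr_deriv (by ring)
  · change HasDerivAt (fun t => -(2 * s * t) / (s ^ 2 + t ^ 2) ^ 2)
      (-((2 * s ^ 3 - 6 * s * t ^ 2) / (s ^ 2 + t ^ 2) ^ 3)) t
    exact ((((h1.const_mul (2 * s)).fun_neg).fun_div hq2 (pow_ne_zero 2 h))).congr_deriv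
      (by field_simp; ring)
  · change HasDerivAt (fun t => 1 / 2 + (s ^ 2 - t ^ 2) / (s ^ 2 + t ^ 2) ^ 2)
      (-((6 * s ^ 2 * t - 2 * t ^ 3) / (s ^ 2 + t ^ 2) ^ 3)) t
    exact (((h2.const_sub (s ^ 2)).fun_div hq2 (pow_ne_zero 2 h)).const_add (1 / 2)).congr_deriv
      (by field_simp; ring)
  · change HasDerivAt (fun t => -t / 2 - 2 * t / (s ^ 2 + t ^ 2))
      (-(1 / 2 - (2 * t ^ 2 - 2 * s ^ 2) / (s ^ 2 + t ^ 2) ^ 2)) t
    exact ((h1.fun_neg.div_const 2).fun_sub ((h1.const_mul 2).fun_div hq h)).congr_deriv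
      (by field_simp; ring)

theorem q_eq (p : ℝ × ℝ) : q p = p.1 ^ 2 + p.2 ^ 2 := rfl

theorem pS_congr {V : Type} [NormedAddCommGroup V] [NormedSpace ℝ V] {f g : ℝ × ℝ → V}
    (h : ∀ p ∈ U0, f p = g p) {p : ℝ × ℝ} (hp : p ∈ U0) : pS f p = pS g p := by
  unfold pS
  apply Filter.EventuallyEq.deriv_eq
  have hc : Continuous (fun s : ℝ => (s, p.2)) := by fun_prop
  have : (fun s : ℝ => (s, p.2)) ⁻¹' U0 ∈ 𝓝 p.1 :=
    (isOpen_U0.preimage hc).mem_nhds hp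
  filter_upwards [this] with s hs
  exact h _ hs

theorem pT_congr {V : Type} [NormedAddCommGroup V] [NormedSpace ℝ V] {f g : ℝ × ℝ → V}
    (h : ∀ p ∈ U0, f p = g p) {p : ℝ × ℝ} (hp : p ∈ U0) : pT f p = pT g p := by
  unfold pT
  apply Filter.EventuallyEq.deriv_eq
  have hc : Continuous (fun t : ℝ => (p.1, t)) := by fun_prop
  have : (fun t : ℝ => (p.1, t)) ⁻¹' U0 ∈ 𝓝 p.2 :=
    (isOpen_U0.preimage hc).mem_nhds hp
  filter_upwards [this] with s hs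
  exact h _ hs

theorem pS_X {p : ℝ × ℝ} (hp : p ∈ U0) : pS X p = Xs p :=
  (hasDerivAt_Xs (q_pos hp).ne').deriv

theorem pT_X {p : ℝ × ℝ} (hp : p ∈ U0) : pT X p = Xt p :=
  (hasDerivAt_Xt (q_pos hp).ne').deriv

theorem pSS_X {p : ℝ × ℝ} (hp : p ∈ U0) : pS (pS X) p = Xss p := by
  rw [pS_congr (g := Xs) (fun p hp => pS_X hp) hp]
  exact (hasDerivAt_Xss (q_pos hp).ne').deriv

theorem pTT_X {p : ℝ × ℝ} (hp : p ∈ U0) : pT (pT X) p = -Xss p := by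
  rw [pT_congr (g := Xt) (fun p hp => pT_X hp) hp]
  exact (hasDerivAt_Xtt (q_pos hp).ne').deriv

/-- The polynomial `L = q² λ`. -/
noncomputable def L (p : ℝ × ℝ) : ℝ :=
  1 + p.1 ^ 2 + 3 * p.2 ^ 2 + p.1 ^ 4 / 4 + 5 / 2 * p.1 ^ 2 * p.2 ^ 2 + 9 / 4 * p.2 ^ 4

/-- The conformal factor. -/
noncomputable def lam (p : ℝ × ℝ) : ℝ := L p / (p.1 ^ 2 + p.2 ^ 2) ^ 2

theorem L_pos (p : ℝ × ℝ) : 0 < L p := by
  unfold L; positivity

theorem lam_pos {p : ℝ × ℝ} (hp : p ∈ U0) : 0 < lam p := by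
  have := q_pos hp
  rw [q_eq] at this
  unfold lam
  have := L_pos p
  positivity

theorem cE_X {p : ℝ × ℝ} (hp : p ∈ U0) : cE X p = lam p := by
  have h : p.1 ^ 2 + p.2 ^ 2 ≠ 0 := (q_pos hp).ne'
  simp only [cE, pS_X hp, lor, Xs, lam, L, Matrix.cons_val]
  field_simp
  ring

theorem cG_X {p : ℝ × ℝ} (hp : p ∈ U0) : cG X p = lam p := by
  have h : p.1 ^ 2 + p.2 ^ 2 ≠ 0 := (q_pos hp).ne'
  simp only [cG, pT_X hp, lor, Xt, lam, L, Matrix.cons_val]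
  field_simp
  ring

theorem cF_X {p : ℝ × ℝ} (hp : p ∈ U0) : cF X p = 0 := by
  have h : p.1 ^ 2 + p.2 ^ 2 ≠ 0 := (q_pos hp).ne'
  simp only [cF, pS_X hp, pT_X hp, lor, Xs, Xt, Matrix.cons_val]
  field_simp
  ring

theorem detI_X {p : ℝ × ℝ} (hp : p ∈ U0) : detI X p = lam p ^ 2 := by
  rw [detI, cE_X hp, cG_X hp, cF_X hp]; ring

theorem firstForm_X {p : ℝ × ℝ} (hp : p ∈ U0) (v : ℝ × ℝ) :
    firstForm X p v = lam p * (v.1 ^ 2 + v.2 ^ 2) := by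
  rw [firstForm, cE_X hp, cG_X hp, cF_X hp]; ring

theorem meanCurvature_X {p : ℝ × ℝ} (hp : p ∈ U0) : meanCurvature X p = 0 := by
  have h : halfTrace X p = 0 := by
    rw [halfTrace, pSS_X hp, pTT_X hp, cE_X hp, cG_X hp, cF_X hp]
    simp
  rw [meanCurvature, h, tangentPart]
  simp [lor]

theorem hasDerivAt_lamS {s t : ℝ} (h : s ^ 2 + t ^ 2 ≠ 0) :
    HasDerivAt (fun s => lam (s, t))
      ((2 * s + s ^ 3 + 5 * s * t ^ 2) / (s ^ 2 + t ^ 2) ^ 2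
        - 4 * s * L (s, t) / (s ^ 2 + t ^ 2) ^ 3) s := by
  have h1 : HasDerivAt (fun s : ℝ => s) 1 s := hasDerivAt_id' s
  have h2 : HasDerivAt (fun s : ℝ => s ^ 2) (2 * s) s := by
    simpa using hasDerivAt_pow 2 s
  have h4 : HasDerivAt (fun s : ℝ => s ^ 4) (4 * s ^ 3) s := by
    simpa using hasDerivAt_pow 4 s
  have hq : HasDerivAt (fun s : ℝ => s ^ 2 + t ^ 2) (2 * s) s := h2.add_const _
  have hq2 : HasDerivAt (fun s : ℝ => (s ^ 2 + t ^ 2) ^ 2) (2 * (s ^ 2 + t ^ 2) * (2 * s)) s := by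
    simpa using hq.fun_pow 2
  have hL : HasDerivAt (fun s => L (s, t)) (2 * s + s ^ 3 + 5 * s * t ^ 2) s := by
    change HasDerivAt (fun s => 1 + s ^ 2 + 3 * t ^ 2 + s ^ 4 / 4 + 5 / 2 * s ^ 2 * t ^ 2
      + 9 / 4 * t ^ 4) (2 * s + s ^ 3 + 5 * s * t ^ 2) s
    exact (((((h2.const_add 1).add_const (3 * t ^ 2)).fun_add (h4.div_const 4)).fun_add
      ((h2.const_mul (5 / 2)).mul_const (t ^ 2))).add_const (9 / 4 * t ^ 4)).congr_deriv (by ring)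
  exact (hL.fun_div hq2 (pow_ne_zero 2 h)).congr_deriv (by field_simp; ring)

theorem hasDerivAt_lamT {s t : ℝ} (h : s ^ 2 + t ^ 2 ≠ 0) :
    HasDerivAt (fun t => lam (s, t))
      ((6 * t + 5 * s ^ 2 * t + 9 * t ^ 3) / (s ^ 2 + t ^ 2) ^ 2
        - 4 * t * L (s, t) / (s ^ 2 + t ^ 2) ^ 3) t := by
  have h1 : HasDerivAt (fun s : ℝ => s) 1 t := hasDerivAt_id' t
  have h2 : HasDerivAt (fun s : ℝ => s ^ 2) (2 * t) t := by
    simpa using hasDerivAt_pow 2 t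
  have h4 : HasDerivAt (fun s : ℝ => s ^ 4) (4 * t ^ 3) t := by
    simpa using hasDerivAt_pow 4 t
  have hq : HasDerivAt (fun t : ℝ => s ^ 2 + t ^ 2) (2 * t) t := h2.const_add _
  have hq2 : HasDerivAt (fun t : ℝ => (s ^ 2 + t ^ 2) ^ 2) (2 * (s ^ 2 + t ^ 2) * (2 * t)) t := by
    simpa using hq.fun_pow 2
  have hL : HasDerivAt (fun t => L (s, t)) (6 * t + 5 * s ^ 2 * t + 9 * t ^ 3) t := by
    change HasDerivAt (fun t => 1 + s ^ 2 + 3 * t ^ 2 + s ^ 4 / 4 + 5 / 2 * s ^ 2 * t ^ 2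
      + 9 / 4 * t ^ 4) (6 * t + 5 * s ^ 2 * t + 9 * t ^ 3) t
    exact (((((h2.const_mul 3).const_add (1 + s ^ 2)).add_const (s ^ 4 / 4)).fun_add
      (h2.const_mul (5 / 2 * s ^ 2))).fun_add (h4.const_mul (9 / 4))).congr_deriv (by ring)
  exact (hL.fun_div hq2 (pow_ne_zero 2 h)).congr_deriv (by field_simp; ring)

noncomputable def lamS (p : ℝ × ℝ) : ℝ :=
  (2 * p.1 + p.1 ^ 3 + 5 * p.1 * p.2 ^ 2) / (p.1 ^ 2 + p.2 ^ 2) ^ 2
        - 4 * p.1 * L p / (p.1 ^ 2 + p.2 ^ 2) ^ 3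

noncomputable def lamT (p : ℝ × ℝ) : ℝ :=
  (6 * p.2 + 5 * p.1 ^ 2 * p.2 + 9 * p.2 ^ 3) / (p.1 ^ 2 + p.2 ^ 2) ^ 2
        - 4 * p.2 * L p / (p.1 ^ 2 + p.2 ^ 2) ^ 3

noncomputable def lamSS (p : ℝ × ℝ) : ℝ :=
  (2 + 3 * p.1 ^ 2 + 5 * p.2 ^ 2) / (p.1 ^ 2 + p.2 ^ 2) ^ 2
    - 8 * p.1 * (2 * p.1 + p.1 ^ 3 + 5 * p.1 * p.2 ^ 2) / (p.1 ^ 2 + p.2 ^ 2) ^ 3
    - 4 * L p / (p.1 ^ 2 + p.2 ^ 2) ^ 3
    + 24 * p.1 ^ 2 * L p / (p.1 ^ 2 + p.2 ^ 2) ^ 4

noncomputable def lamTT (p : ℝ × ℝ) : ℝ :=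
  (6 + 5 * p.1 ^ 2 + 27 * p.2 ^ 2) / (p.1 ^ 2 + p.2 ^ 2) ^ 2
    - 8 * p.2 * (6 * p.2 + 5 * p.1 ^ 2 * p.2 + 9 * p.2 ^ 3) / (p.1 ^ 2 + p.2 ^ 2) ^ 3
    - 4 * L p / (p.1 ^ 2 + p.2 ^ 2) ^ 3
    + 24 * p.2 ^ 2 * L p / (p.1 ^ 2 + p.2 ^ 2) ^ 4

theorem hasDerivAt_lamSS {s t : ℝ} (h : s ^ 2 + t ^ 2 ≠ 0) :
    HasDerivAt (fun s => lamS (s, t)) (lamSS (s, t)) s := by
  have h1 : HasDerivAt (fun s : ℝ => s) 1 s := hasDerivAt_id' s
  have h2 : HasDerivAt (fun s : ℝ => s ^ 2) (2 * s) s := by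
    simpa using hasDerivAt_pow 2 s
  have h3 : HasDerivAt (fun s : ℝ => s ^ 3) (3 * s ^ 2) s := by
    simpa using hasDerivAt_pow 3 s
  have h4 : HasDerivAt (fun s : ℝ => s ^ 4) (4 * s ^ 3) s := by
    simpa using hasDerivAt_pow 4 s
  have hq : HasDerivAt (fun s : ℝ => s ^ 2 + t ^ 2) (2 * s) s := h2.add_const _
  have hq2 : HasDerivAt (fun s : ℝ => (s ^ 2 + t ^ 2) ^ 2) (2 * (s ^ 2 + t ^ 2) * (2 * s)) s := by
    simpa using hq.fun_pow 2
  have hq3 : HasDerivAt (fun s : ℝ => (s ^ 2 + t ^ 2) ^ 3)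
      (3 * (s ^ 2 + t ^ 2) ^ 2 * (2 * s)) s := by
    simpa using hq.fun_pow 3
  have hL : HasDerivAt (fun s => L (s, t)) (2 * s + s ^ 3 + 5 * s * t ^ 2) s := by
    change HasDerivAt (fun s => 1 + s ^ 2 + 3 * t ^ 2 + s ^ 4 / 4 + 5 / 2 * s ^ 2 * t ^ 2
      + 9 / 4 * t ^ 4) (2 * s + s ^ 3 + 5 * s * t ^ 2) s
    exact (((((h2.const_add 1).add_const (3 * t ^ 2)).fun_add (h4.div_const 4)).fun_add
      ((h2.const_mul (5 / 2)).mul_const (t ^ 2))).add_const (9 / 4 * t ^ 4)).congr_deriv (by ring)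
  have hLs : HasDerivAt (fun s : ℝ => 2 * s + s ^ 3 + 5 * s * t ^ 2) (2 + 3 * s ^ 2 + 5 * t ^ 2) s :=
    (((h1.const_mul 2).fun_add h3).fun_add ((h1.const_mul 5).mul_const (t ^ 2))).congr_deriv
      (by ring)
  exact ((hLs.fun_div hq2 (pow_ne_zero 2 h)).fun_sub
    (((h1.const_mul 4).fun_mul hL).fun_div hq3 (pow_ne_zero 3 h))).congr_deriv
      (by simp only [lamSS]; field_simp; ring)

theorem hasDerivAt_lamTT {s t : ℝ} (h : s ^ 2 + t ^ 2 ≠ 0) :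
    HasDerivAt (fun t => lamT (s, t)) (lamTT (s, t)) t := by
  have h1 : HasDerivAt (fun s : ℝ => s) 1 t := hasDerivAt_id' t
  have h2 : HasDerivAt (fun s : ℝ => s ^ 2) (2 * t) t := by
    simpa using hasDerivAt_pow 2 t
  have h3 : HasDerivAt (fun s : ℝ => s ^ 3) (3 * t ^ 2) t := by
    simpa using hasDerivAt_pow 3 t
  have h4 : HasDerivAt (fun s : ℝ => s ^ 4) (4 * t ^ 3) t := by
    simpa using hasDerivAt_pow 4 t
  have hq : HasDerivAt (fun t : ℝ => s ^ 2 + t ^ 2) (2 * t) t := h2.const_add _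
  have hq2 : HasDerivAt (fun t : ℝ => (s ^ 2 + t ^ 2) ^ 2) (2 * (s ^ 2 + t ^ 2) * (2 * t)) t := by
    simpa using hq.fun_pow 2
  have hq3 : HasDerivAt (fun t : ℝ => (s ^ 2 + t ^ 2) ^ 3)
      (3 * (s ^ 2 + t ^ 2) ^ 2 * (2 * t)) t := by
    simpa using hq.fun_pow 3
  have hL : HasDerivAt (fun t => L (s, t)) (6 * t + 5 * s ^ 2 * t + 9 * t ^ 3) t := by
    change HasDerivAt (fun t => 1 + s ^ 2 + 3 * t ^ 2 + s ^ 4 / 4 + 5 / 2 * s ^ 2 * t ^ 2
      + 9 / 4 * t ^ 4) (6 * t + 5 * s ^ 2 * t + 9 * t ^ 3) t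
    exact (((((h2.const_mul 3).const_add (1 + s ^ 2)).add_const (s ^ 4 / 4)).fun_add
      (h2.const_mul (5 / 2 * s ^ 2))).fun_add (h4.const_mul (9 / 4))).congr_deriv (by ring)
  have hLt : HasDerivAt (fun t : ℝ => 6 * t + 5 * s ^ 2 * t + 9 * t ^ 3)
      (6 + 5 * s ^ 2 + 27 * t ^ 2) t :=
    (((h1.const_mul 6).fun_add (h1.const_mul (5 * s ^ 2))).fun_add (h3.const_mul 9)).congr_deriv
      (by ring)
  exact ((hLt.fun_div hq2 (pow_ne_zero 2 h)).fun_sub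
    (((h1.const_mul 4).fun_mul hL).fun_div hq3 (pow_ne_zero 3 h))).congr_deriv
      (by simp only [lamTT]; field_simp; ring)

theorem pS_lam {p : ℝ × ℝ} (hp : p ∈ U0) : pS lam p = lamS p :=
  (hasDerivAt_lamS (q_pos hp).ne').deriv

theorem pT_lam {p : ℝ × ℝ} (hp : p ∈ U0) : pT lam p = lamT p :=
  (hasDerivAt_lamT (q_pos hp).ne').deriv

theorem pSS_lam {p : ℝ × ℝ} (hp : p ∈ U0) : pS (pS lam) p = lamSS p := by
  rw [pS_congr (g := lamS) (fun p hp => pS_lam hp) hp]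
  exact (hasDerivAt_lamSS (q_pos hp).ne').deriv

theorem pTT_lam {p : ℝ × ℝ} (hp : p ∈ U0) : pT (pT lam) p = lamTT p := by
  rw [pT_congr (g := lamT) (fun p hp => pT_lam hp) hp]
  exact (hasDerivAt_lamTT (q_pos hp).ne').deriv

theorem pS_zero {p : ℝ × ℝ} (hp : p ∈ U0) {f : ℝ × ℝ → ℝ} (h : ∀ p ∈ U0, f p = 0) :
    pS f p = 0 := by
  rw [pS_congr (g := fun _ => 0) h hp]; simp [pS]

theorem pT_zero {p : ℝ × ℝ} (hp : p ∈ U0) {f : ℝ × ℝ → ℝ} (h : ∀ p ∈ U0, f p = 0) :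
    pT f p = 0 := by
  rw [pT_congr (g := fun _ => 0) h hp]; simp [pT]

/-- the polynomial whose ratio with `2 L²` is `-K λ` -/
noncomputable def D (p : ℝ × ℝ) : ℝ :=
  8 + 12 * p.1 ^ 2 + 20 * p.2 ^ 2 + 6 * p.1 ^ 4 - 4 * p.1 ^ 2 * p.2 ^ 2 + 6 * p.2 ^ 4
    + p.1 ^ 6 - 7 * p.1 ^ 4 * p.2 ^ 2 - 17 * p.1 ^ 2 * p.2 ^ 4 - 9 * p.2 ^ 6

theorem gaussK_X {p : ℝ × ℝ} (hp : p ∈ U0) :
    gaussK X p = (-(1 / 2) * lam p * (lamSS p + lamTT p) + (1 / 2) * (lamS p ^ 2 + lamT p ^ 2))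
      / lam p ^ 3 := by
  have hE : ∀ p ∈ U0, cE X p = lam p := fun p hp => cE_X hp
  have hG : ∀ p ∈ U0, cG X p = lam p := fun p hp => cG_X hp
  have hF : ∀ p ∈ U0, cF X p = 0 := fun p hp => cF_X hp
  have e1 : pS (cE X) p = lamS p := by rw [pS_congr hE hp, pS_lam hp]
  have e2 : pT (cE X) p = lamT p := by rw [pT_congr hE hp, pT_lam hp]
  have e3 : pS (cG X) p = lamS p := by rw [pS_congr hG hp, pS_lam hp]
  have e4 : pT (cG X) p = lamT p := by rw [pT_congr hG hp, pT_lam hp]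
  have e5 : pT (pT (cE X)) p = lamTT p := by
    rw [pT_congr (g := pT lam) (fun p hp => pT_congr hE hp) hp, pTT_lam hp]
  have e6 : pS (pS (cG X)) p = lamSS p := by
    rw [pS_congr (g := pS lam) (fun p hp => pS_congr hG hp) hp, pSS_lam hp]
  have e7 : pS (cF X) p = 0 := pS_zero hp hF
  have e8 : pT (cF X) p = 0 := pT_zero hp hF
  have e9 : pS (pT (cF X)) p = 0 := pS_zero hp (fun p hp => pT_zero hp hF)
  rw [gaussK, e1, e2, e3, e4, e5, e6, e7, e8, e9, detI_X hp, cE_X hp, cF_X hp, cG_X hp]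
  have := (lam_pos hp).ne'
  rw [Matrix.det_fin_three, Matrix.det_fin_three]
  simp
  field_simp
  ring

theorem gaussK_mul_X {p : ℝ × ℝ} (hp : p ∈ U0) :
    gaussK X p * Real.sqrt (detI X p) = -(D p / (2 * L p ^ 2)) := by
  rw [detI_X hp, Real.sqrt_sq (lam_pos hp).le, gaussK_X hp]
  have h1 := (L_pos p).ne'
  have h : p.1 ^ 2 + p.2 ^ 2 ≠ 0 := (q_pos hp).ne'
  have h2 := (lam_pos hp).ne'
  have e : (-(1 / 2) * lam p * (lamSS p + lamTT p) + (1 / 2) * (lamS p ^ 2 + lamT p ^ 2))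
      / lam p ^ 3 * lam p
      = (-(1 / 2) * lam p * (lamSS p + lamTT p) + (1 / 2) * (lamS p ^ 2 + lamT p ^ 2))
      / lam p ^ 2 := by
    field_simp
  rw [e, lamSS, lamTT, lamS, lamT, lam]
  have e2 : D p = L p * (8 + 8 * p.1 ^ 2 + 32 * p.2 ^ 2)
      - (2 * p.1 + p.1 ^ 3 + 5 * p.1 * p.2 ^ 2) ^ 2
      - (6 * p.2 + 5 * p.1 ^ 2 * p.2 + 9 * p.2 ^ 3) ^ 2 := by
    simp only [D, L]; ring
  rw [e2]
  field_simp
  ring

theorem isConnected_U0 : IsConnected U0 := by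
  have h : 1 < Module.rank ℝ (ℝ × ℝ) := by
    rw [rank_prod', Module.rank_self]
    norm_num
  have := isConnected_compl_singleton_of_one_lt_rank h (0 : ℝ × ℝ)
  exact this

theorem contDiffOn_X : ContDiffOn ℝ (⊤ : ℕ∞) X U0 := by
  rw [contDiffOn_pi]
  have hq : ∀ p ∈ U0, p.1 ^ 2 + p.2 ^ 2 ≠ 0 := fun p hp => (q_pos hp).ne'
  intro i
  fin_cases i
  · change ContDiffOn ℝ (⊤ : ℕ∞) (fun p : ℝ × ℝ => (p.1 ^ 2 - p.2 ^ 2) / 4) U0
    fun_prop
  · change ContDiffOn ℝ (⊤ : ℕ∞)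
      (fun p : ℝ × ℝ => p.1 * (3 / 2) + p.1 / (p.1 ^ 2 + p.2 ^ 2)) U0
    refine ContDiffOn.add (by fun_prop) (ContDiffOn.div (by fun_prop) (by fun_prop) hq)
  · change ContDiffOn ℝ (⊤ : ℕ∞)
      (fun p : ℝ × ℝ => p.2 * (1 / 2) + p.2 / (p.1 ^ 2 + p.2 ^ 2)) U0
    refine ContDiffOn.add (by fun_prop) (ContDiffOn.div (by fun_prop) (by fun_prop) hq)
  · change ContDiffOn ℝ (⊤ : ℕ∞)
      (fun p : ℝ × ℝ => (p.1 ^ 2 - p.2 ^ 2) / 4 - Real.log (p.1 ^ 2 + p.2 ^ 2)) U0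
    refine ContDiffOn.sub (by fun_prop) (ContDiffOn.log (by fun_prop) hq)

theorem X_zero (p : ℝ × ℝ) : X p 0 = (p.1 ^ 2 - p.2 ^ 2) / 4 := rfl

theorem X_one (p : ℝ × ℝ) : X p 1 = p.1 * (3 / 2) + p.1 / (p.1 ^ 2 + p.2 ^ 2) := rfl

theorem X_two (p : ℝ × ℝ) : X p 2 = p.2 * (1 / 2) + p.2 / (p.1 ^ 2 + p.2 ^ 2) := rfl

theorem X_three (p : ℝ × ℝ) :
    X p 3 = (p.1 ^ 2 - p.2 ^ 2) / 4 - Real.log (p.1 ^ 2 + p.2 ^ 2) := rfl

theorem injOn_X : U0.InjOn X := by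
  intro p hp p' hp' h
  have h0 : X p 0 = X p' 0 := by rw [h]
  have h1 : X p 1 = X p' 1 := by rw [h]
  have h2 : X p 2 = X p' 2 := by rw [h]
  have h3 : X p 3 = X p' 3 := by rw [h]
  rw [X_zero, X_zero] at h0
  rw [X_one, X_one] at h1
  rw [X_two, X_two] at h2
  rw [X_three, X_three, h0] at h3
  have hq := q_pos hp
  have hq' := q_pos hp'
  rw [q_eq] at hq hq'
  have hlog : p.1 ^ 2 + p.2 ^ 2 = p'.1 ^ 2 + p'.2 ^ 2 :=
    Real.log_injOn_pos hq hq' (by linarith)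
  rw [← hlog] at h1 h2 hq'
  set r := p.1 ^ 2 + p.2 ^ 2 with hr
  have e1 : (p.1 - p'.1) * (3 / 2 + 1 / r) = 0 := by
    have : (p.1 - p'.1) * (3 / 2 + 1 / r)
      = (p.1 * (3 / 2) + p.1 / r) - (p'.1 * (3 / 2) + p'.1 / r) := by ring
    rw [this, h1, sub_self]
  have e2 : (p.2 - p'.2) * (1 / 2 + 1 / r) = 0 := by
    have : (p.2 - p'.2) * (1 / 2 + 1 / r)
      = (p.2 * (1 / 2) + p.2 / r) - (p'.2 * (1 / 2) + p'.2 / r) := by ring
    rw [this, h2, sub_self]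
  have f1 : (3 / 2 + 1 / r) ≠ 0 := by positivity
  have f2 : (1 / 2 + 1 / r) ≠ 0 := by positivity
  have g1 : p.1 = p'.1 := by
    rcases mul_eq_zero.1 e1 with h | h
    · linarith
    · exact absurd h f1
  have g2 : p.2 = p'.2 := by
    rcases mul_eq_zero.1 e2 with h | h
    · linarith
    · exact absurd h f2
  exact Prod.ext g1 g2

/-- Closed annuli are compact. -/
theorem isCompact_annulus (a b : ℝ) :
    IsCompact {p : ℝ × ℝ | a ≤ p.1 ^ 2 + p.2 ^ 2 ∧ p.1 ^ 2 + p.2 ^ 2 ≤ b} := by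
  have hc : IsClosed {p : ℝ × ℝ | a ≤ p.1 ^ 2 + p.2 ^ 2 ∧ p.1 ^ 2 + p.2 ^ 2 ≤ b} := by
    have h1 : Continuous (fun p : ℝ × ℝ => p.1 ^ 2 + p.2 ^ 2) := by fun_prop
    exact (isClosed_le continuous_const h1).inter (isClosed_le h1 continuous_const)
  have hb : IsCompact (Icc (-(|b| + 1)) (|b| + 1) ×ˢ Icc (-(|b| + 1)) (|b| + 1) : Set (ℝ × ℝ)) :=
    isCompact_Icc.prod isCompact_Icc
  refine hb.of_isClosed_subset hc ?_
  rintro ⟨s, t⟩ ⟨-, h⟩
  simp only at h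
  have hb0 : b ≤ |b| := le_abs_self b
  have hb1 : 0 ≤ |b| := abs_nonneg b
  simp only [mem_prod, mem_Icc]
  refine ⟨⟨?_, ?_⟩, ⟨?_, ?_⟩⟩
  · nlinarith [sq_nonneg t, sq_nonneg (s + |b| + 1)]
  · nlinarith [sq_nonneg t]
  · nlinarith [sq_nonneg s]
  · nlinarith [sq_nonneg s]

theorem isProperMap_X : IsProperMap (fun p : U0 => X p) := by
  rw [isProperMap_iff_isCompact_preimage]
  refine ⟨continuousOn_iff_continuous_domRestrict.1 contDiffOn_X.continuousOn, ?_⟩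
  intro K hK
  rw [Subtype.isCompact_iff]
  obtain ⟨R, hR⟩ : ∃ R : ℝ, ∀ y ∈ K, |y 0 - y 3| ≤ R := by
    have hc : ContinuousOn (fun y : Fin 4 → ℝ => |y 0 - y 3|) K := by fun_prop
    rcases hK.bddAbove_image hc with ⟨R, hR⟩
    exact ⟨R, fun y hy => hR ⟨y, hy, rfl⟩⟩
  set A : Set (ℝ × ℝ) := {p | Real.exp (-R) ≤ p.1 ^ 2 + p.2 ^ 2 ∧ p.1 ^ 2 + p.2 ^ 2 ≤ Real.exp R}
    with hA
  have hAc : IsCompact A := isCompact_annulus _ _
  have hAU : A ⊆ U0 := by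
    intro p hp
    rw [mem_U0_iff, q_eq]
    exact (Real.exp_pos _).trans_le hp.1
  have himg : (Subtype.val '' ((fun p : U0 => X p) ⁻¹' K)) = A ∩ X ⁻¹' K := by
    ext p
    constructor
    · rintro ⟨⟨p, hp⟩, hpK, rfl⟩
      have hpK' : X p ∈ K := hpK
      have h1 := hR _ hpK'
      rw [X_zero, X_three] at h1
      have hq := q_pos hp
      rw [q_eq] at hq
      have h2 : |Real.log (p.1 ^ 2 + p.2 ^ 2)| ≤ R := by
        convert h1 using 2; ring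
      rw [abs_le] at h2
      refine ⟨⟨?_, ?_⟩, hpK'⟩
      · rw [← Real.le_log_iff_exp_le hq]; exact h2.1
      · rw [← Real.log_le_iff_le_exp hq]; exact h2.2
    · rintro ⟨hpA, hpK⟩
      exact ⟨⟨p, hAU hpA⟩, hpK, rfl⟩
  rw [himg]
  have hcl : IsClosed (A ∩ X ⁻¹' K) :=
    (contDiffOn_X.continuousOn.mono hAU).preimage_isClosed_of_isClosed hAc.isClosed hK.isClosed
  exact hAc.of_isClosed_subset hcl inter_subset_left

theorem lam_ge {p : ℝ × ℝ} (hp : p ∈ U0) : (1 / (p.1 ^ 2 + p.2 ^ 2) + 1 / 2) ^ 2 ≤ lam p := by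
  have hq := q_pos hp
  rw [q_eq] at hq
  have : lam p - (1 / (p.1 ^ 2 + p.2 ^ 2) + 1 / 2) ^ 2
      = (2 * p.2 ^ 2 + 2 * p.1 ^ 2 * p.2 ^ 2 + 2 * p.2 ^ 4) / (p.1 ^ 2 + p.2 ^ 2) ^ 2 := by
    unfold lam L
    field_simp
    ring
  have h2 : 0 ≤ (2 * p.2 ^ 2 + 2 * p.1 ^ 2 * p.2 ^ 2 + 2 * p.2 ^ 4) / (p.1 ^ 2 + p.2 ^ 2) ^ 2 := by
    positivity
  linarith

theorem continuousOn_lam : ContinuousOn lam U0 := by
  have hq : ∀ p ∈ U0, (p.1 ^ 2 + p.2 ^ 2) ^ 2 ≠ 0 := fun p hp => pow_ne_zero 2 (q_pos hp).ne'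
  unfold lam L
  exact ContinuousOn.div (by fun_prop) (by fun_prop) hq

theorem abs_sub_le_integral {f f' w : ℝ → ℝ}
    (hf : ∀ τ ∈ Icc (0 : ℝ) 1, HasDerivAt f (f' τ) τ)
    (hf' : ContinuousOn f' (Icc 0 1)) (hw : ContinuousOn w (Icc 0 1))
    (h : ∀ τ ∈ Icc (0 : ℝ) 1, |f' τ| ≤ 2 * w τ) :
    |f 1 - f 0| ≤ 2 * ∫ τ in (0 : ℝ)..1, w τ := by
  have hu : uIcc (0 : ℝ) 1 = Icc 0 1 := uIcc_of_le zero_le_one
  have hi : IntervalIntegrable f' volume 0 1 := by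
    apply ContinuousOn.intervalIntegrable; rwa [hu]
  have hwi : IntervalIntegrable w volume 0 1 := by
    apply ContinuousOn.intervalIntegrable; rwa [hu]
  have h1 : ∫ τ in (0 : ℝ)..1, f' τ = f 1 - f 0 :=
    intervalIntegral.integral_eq_sub_of_hasDerivAt (fun τ hτ => hf τ (by rwa [hu] at hτ)) hi
  rw [← h1, ← intervalIntegral.integral_const_mul]
  refine (intervalIntegral.abs_integral_le_integral_abs zero_le_one).trans ?_
  exact intervalIntegral.integral_mono_on zero_le_one hi.abs (hwi.const_mul 2) h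

theorem curve_bounds {γ : ℝ → ℝ × ℝ} (hγ : ContDiff ℝ 1 γ)
    (hU : ∀ τ ∈ Icc (0 : ℝ) 1, γ τ ∈ U0) :
    |(γ 1).1 - (γ 0).1| ≤ 2 * curveLength X γ ∧ |(γ 1).2 - (γ 0).2| ≤ 2 * curveLength X γ ∧
      |Real.log ((γ 1).1 ^ 2 + (γ 1).2 ^ 2) - Real.log ((γ 0).1 ^ 2 + (γ 0).2 ^ 2)|
        ≤ 2 * curveLength X γ := by
  have hdiff : ∀ τ, HasDerivAt γ (deriv γ τ) τ := fun τ =>
    (hγ.differentiable (by simp) τ).hasDerivAt
  have hcγ : Continuous γ := hγ.continuous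
  have hcd : Continuous (deriv γ) := hγ.continuous_deriv (by simp)
  have hd1 : ∀ τ, HasDerivAt (fun τ => (γ τ).1) (deriv γ τ).1 τ := fun τ => (hdiff τ).fst
  have hd2 : ∀ τ, HasDerivAt (fun τ => (γ τ).2) (deriv γ τ).2 τ := fun τ => (hdiff τ).snd
  have hw : ∀ τ ∈ Icc (0 : ℝ) 1, Real.sqrt (firstForm X (γ τ) (deriv γ τ))
      = Real.sqrt (lam (γ τ) * ((deriv γ τ).1 ^ 2 + (deriv γ τ).2 ^ 2)) := by
    intro τ hτ
    rw [firstForm_X (hU τ hτ)]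
  have hwc : ContinuousOn (fun τ => Real.sqrt (firstForm X (γ τ) (deriv γ τ))) (Icc 0 1) := by
    refine ContinuousOn.congr ?_ hw
    have h1 : ContinuousOn (fun τ => lam (γ τ)) (Icc 0 1) :=
      continuousOn_lam.comp hcγ.continuousOn (fun τ hτ => hU τ hτ)
    have h2 : Continuous (fun τ => (deriv γ τ).1 ^ 2 + (deriv γ τ).2 ^ 2) := by fun_prop
    exact Real.continuous_sqrt.comp_continuousOn (h1.mul h2.continuousOn)
  refine ⟨?_, ?_, ?_⟩
  · refine abs_sub_le_integral (f := fun τ => (γ τ).1) (fun τ _ => hd1 τ) (by fun_prop) hwc ?_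
    intro τ hτ
    rw [hw τ hτ]
    have h3 := lam_ge (hU τ hτ)
    have hq := q_pos (hU τ hτ)
    rw [q_eq] at hq
    have h4 : 0 < 1 / ((γ τ).1 ^ 2 + (γ τ).2 ^ 2) := by positivity
    have h5 : 1 / 4 ≤ lam (γ τ) := by nlinarith
    have h6 : |(deriv γ τ).1 / 2| ≤
        Real.sqrt (lam (γ τ) * ((deriv γ τ).1 ^ 2 + (deriv γ τ).2 ^ 2)) := by
      apply Real.abs_le_sqrt
      nlinarith [sq_nonneg (deriv γ τ).1, sq_nonneg (deriv γ τ).2]
    rw [abs_div, abs_of_pos (by norm_num : (0 : ℝ) < 2)] at h6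
    linarith
  · refine abs_sub_le_integral (f := fun τ => (γ τ).2) (fun τ _ => hd2 τ) (by fun_prop) hwc ?_
    intro τ hτ
    rw [hw τ hτ]
    have h3 := lam_ge (hU τ hτ)
    have hq := q_pos (hU τ hτ)
    rw [q_eq] at hq
    have h4 : 0 < 1 / ((γ τ).1 ^ 2 + (γ τ).2 ^ 2) := by positivity
    have h5 : 1 / 4 ≤ lam (γ τ) := by nlinarith
    have h6 : |(deriv γ τ).2 / 2| ≤
        Real.sqrt (lam (γ τ) * ((deriv γ τ).1 ^ 2 + (deriv γ τ).2 ^ 2)) := by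
      apply Real.abs_le_sqrt
      nlinarith [sq_nonneg (deriv γ τ).1, sq_nonneg (deriv γ τ).2]
    rw [abs_div, abs_of_pos (by norm_num : (0 : ℝ) < 2)] at h6
    linarith
  · refine abs_sub_le_integral (f := fun τ => Real.log ((γ τ).1 ^ 2 + (γ τ).2 ^ 2))
      (f' := fun τ => (2 * (γ τ).1 * (deriv γ τ).1 + 2 * (γ τ).2 * (deriv γ τ).2)
        / ((γ τ).1 ^ 2 + (γ τ).2 ^ 2)) ?_ ?_ hwc ?_
    · intro τ hτ
      have hq := q_pos (hU τ hτ)
      rw [q_eq] at hq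
      have h1 : HasDerivAt (fun τ => (γ τ).1 ^ 2) (2 * (γ τ).1 * (deriv γ τ).1) τ := by
        simpa using (hd1 τ).fun_pow 2
      have h2 : HasDerivAt (fun τ => (γ τ).2 ^ 2) (2 * (γ τ).2 * (deriv γ τ).2) τ := by
        simpa using (hd2 τ).fun_pow 2
      exact (h1.fun_add h2).log hq.ne'
    · refine ContinuousOn.div (by fun_prop) (by fun_prop) ?_
      intro τ hτ
      exact (q_pos (hU τ hτ)).ne'
    · intro τ hτ
      rw [hw τ hτ]
      have h3 := lam_ge (hU τ hτ)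
      have hq := q_pos (hU τ hτ)
      rw [q_eq] at hq
      set s := (γ τ).1
      set t := (γ τ).2
      set a := (deriv γ τ).1
      set b := (deriv γ τ).2
      have h4 : 0 < 1 / (s ^ 2 + t ^ 2) := by positivity
      have h5 : 1 / (s ^ 2 + t ^ 2) ≤ lam (γ τ) := by nlinarith
      have h6 : |(2 * s * a + 2 * t * b) / (s ^ 2 + t ^ 2) / 2| ≤
          Real.sqrt (lam (γ τ) * (a ^ 2 + b ^ 2)) := by
        apply Real.abs_le_sqrt
        have h7 : ((2 * s * a + 2 * t * b) / (s ^ 2 + t ^ 2) / 2) ^ 2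
            ≤ 1 / (s ^ 2 + t ^ 2) * (a ^ 2 + b ^ 2) := by
          rw [div_div, div_pow, div_mul_eq_mul_div, one_mul, div_le_div_iff₀ (by positivity) hq]
          have : (2 * s * a + 2 * t * b) ^ 2 ≤ 4 * ((s ^ 2 + t ^ 2) * (a ^ 2 + b ^ 2)) := by
            nlinarith [sq_nonneg (s * b - t * a)]
          nlinarith
        refine h7.trans ?_
        exact mul_le_mul_of_nonneg_right h5 (by positivity)
      rw [abs_div, abs_of_pos (by norm_num : (0 : ℝ) < 2)] at h6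
      linarith

theorem isMetricComplete_X : IsMetricComplete U0 X := by
  intro u hu hC
  have key : ∀ f : ℝ × ℝ → ℝ,
      (∀ γ : ℝ → ℝ × ℝ, ContDiff ℝ 1 γ → (∀ τ ∈ Icc (0 : ℝ) 1, γ τ ∈ U0) →
        |f (γ 1) - f (γ 0)| ≤ 2 * curveLength X γ) →
      ∃ l, Tendsto (fun n => f (u n)) atTop (𝓝 l) := by
    intro f hf
    apply cauchySeq_tendsto_of_complete
    rw [Metric.cauchySeq_iff]
    intro ε hε
    obtain ⟨N, hN⟩ := hC (ε / 2) (by positivity)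
    refine ⟨N, fun m hm n hn => ?_⟩
    obtain ⟨γ, hγ, hγU, h0, h1, hlen⟩ := hN n hn m hm
    have := hf γ hγ hγU
    rw [h0, h1] at this
    rw [Real.dist_eq]
    linarith
  obtain ⟨s, hs⟩ := key (fun p => p.1) (fun γ h1 h2 => (curve_bounds h1 h2).1)
  obtain ⟨t, ht⟩ := key (fun p => p.2) (fun γ h1 h2 => (curve_bounds h1 h2).2.1)
  obtain ⟨l, hl⟩ := key (fun p => Real.log (p.1 ^ 2 + p.2 ^ 2))
    (fun γ h1 h2 => (curve_bounds h1 h2).2.2)
  have h1 : Tendsto (fun n => (u n).1 ^ 2 + (u n).2 ^ 2) atTop (𝓝 (s ^ 2 + t ^ 2)) :=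
    (hs.pow 2).add (ht.pow 2)
  have h2 : Tendsto (fun n => Real.exp (Real.log ((u n).1 ^ 2 + (u n).2 ^ 2))) atTop
      (𝓝 (Real.exp l)) := (Real.continuous_exp.tendsto l).comp hl
  have h3 : (fun n => Real.exp (Real.log ((u n).1 ^ 2 + (u n).2 ^ 2)))
      = fun n => (u n).1 ^ 2 + (u n).2 ^ 2 := by
    funext n
    exact Real.exp_log (q_pos (hu n))
  rw [h3] at h2
  have h4 := tendsto_nhds_unique h1 h2
  refine ⟨(s, t), ?_, ?_⟩
  · rw [mem_U0_iff, q_eq]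
    simp only
    rw [h4]
    exact Real.exp_pos _
  · exact hs.prodMk_nhds ht

/-- A sector on which the curvature density is bounded below by `1 / (36 s²)`. -/
def Sec : Set (ℝ × ℝ) := {p | 1 ≤ p.1 ∧ 0 ≤ p.2 ∧ p.2 ≤ p.1 / 10}

theorem measurableSet_Sec : MeasurableSet Sec := by
  have h1 : Measurable (fun p : ℝ × ℝ => p.1) := measurable_fst
  have h2 : Measurable (fun p : ℝ × ℝ => p.2) := measurable_snd
  exact (measurableSet_le measurable_const h1).inter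
    ((measurableSet_le measurable_const h2).inter (measurableSet_le h2 (h1.div_const 10)))

theorem Sec_subset : Sec ⊆ U0 := by
  rintro ⟨s, t⟩ ⟨h1, -, -⟩
  rw [mem_U0_iff, q_eq]
  simp only at h1 ⊢
  nlinarith [sq_nonneg t]

theorem density_ge {p : ℝ × ℝ} (hp : p ∈ Sec) :
    1 / (36 * p.1 ^ 2) ≤ |gaussK X p| * Real.sqrt (detI X p) := by
  have hU := Sec_subset hp
  have h1 : |gaussK X p| * Real.sqrt (detI X p) = |gaussK X p * Real.sqrt (detI X p)| := by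
    rw [abs_mul, abs_of_nonneg (Real.sqrt_nonneg _)]
  rw [h1, gaussK_mul_X hU, abs_neg]
  refine le_trans ?_ (le_abs_self _)
  obtain ⟨s, t⟩ := p
  obtain ⟨hs, ht0, ht⟩ := hp
  simp only at hs ht0 ht
  have hs0 : 0 < s := by linarith
  have hL := L_pos (s, t)
  rw [div_le_div_iff₀ (by positivity) (by positivity)]
  have hs2 : 1 ≤ s ^ 2 := by nlinarith
  have ht2 : t ^ 2 ≤ s ^ 2 / 100 := by nlinarith
  have ht20 : 0 ≤ t ^ 2 := sq_nonneg t
  set a := s ^ 2 with ha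
  set b := t ^ 2 with hb
  have eL : L (s, t) = 1 + a + 3 * b + a ^ 2 / 4 + 5 / 2 * a * b + 9 / 4 * b ^ 2 := by
    simp only [L, ha, hb]; ring
  have eD : D (s, t) = 8 + 12 * a + 20 * b + 6 * a ^ 2 - 4 * a * b + 6 * b ^ 2
      + a ^ 3 - 7 * a ^ 2 * b - 17 * a * b ^ 2 - 9 * b ^ 3 := by
    simp only [D, ha, hb]; ring
  have hab : a * b ≤ a ^ 2 / 100 := by nlinarith
  have hbb : b ^ 2 ≤ a ^ 2 / 10000 := by nlinarith
  have hL3 : L (s, t) ≤ 3 * a ^ 2 := by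
    rw [eL]
    nlinarith
  have hD : a ^ 3 / 2 ≤ D (s, t) := by
    rw [eD]
    have e1 : a ^ 2 * b ≤ a ^ 3 / 100 := by nlinarith [sq_nonneg a]
    have e2 : a * b ^ 2 ≤ a ^ 3 / 10000 := by nlinarith
    have e3 : b ^ 3 ≤ a ^ 3 / 10000 := by
      calc b ^ 3 = b * b ^ 2 := by ring
        _ ≤ a * b ^ 2 := by nlinarith [sq_nonneg b]
        _ ≤ a ^ 3 / 10000 := e2
    have e4 : 0 ≤ a ^ 3 := by positivity
    nlinarith
  have hL2 : L (s, t) ^ 2 ≤ 9 * a ^ 4 := by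
    calc L (s, t) ^ 2 ≤ (3 * a ^ 2) ^ 2 := by
          apply pow_le_pow_left₀ hL.le hL3
      _ = 9 * a ^ 4 := by ring
  calc 1 * (2 * L (s, t) ^ 2) ≤ 18 * a ^ 4 := by linarith
    _ = (a ^ 3 / 2) * (36 * a) := by ring
    _ ≤ D (s, t) * (36 * a) := by
        apply mul_le_mul_of_nonneg_right hD (by positivity)

theorem lintegral_inv_top : ∫⁻ s in Ioi (1 : ℝ), ENNReal.ofReal s⁻¹ = ⊤ := by
  by_contra h
  apply not_integrableOn_Ioi_inv (a := 1)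
  refine ⟨measurable_inv.aestronglyMeasurable, ?_⟩
  rw [hasFiniteIntegral_iff_ofReal]
  · exact lt_top_iff_ne_top.2 h
  · filter_upwards [self_mem_ae_restrict measurableSet_Ioi] with s hs
    have : (0 : ℝ) < s := lt_trans one_pos hs
    positivity

theorem totalAbsCurvature_X : totalAbsCurvature U0 X = ⊤ := by
  have hmeas : Measurable (fun p : ℝ × ℝ => ENNReal.ofReal (1 / (36 * p.1 ^ 2))) := by
    fun_prop
  set h : ℝ × ℝ → ENNReal := Sec.indicator (fun p => ENNReal.ofReal (1 / (36 * p.1 ^ 2))) with hh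
  have hm : Measurable h := hmeas.indicator measurableSet_Sec
  have h1 : ∫⁻ p, h p ≤ totalAbsCurvature U0 X := by
    rw [totalAbsCurvature, hh, lintegral_indicator measurableSet_Sec]
    calc ∫⁻ p in Sec, ENNReal.ofReal (1 / (36 * p.1 ^ 2))
        ≤ ∫⁻ p in Sec, ENNReal.ofReal (|gaussK X p| * Real.sqrt (detI X p)) :=
          setLIntegral_mono' measurableSet_Sec
            (fun p hp => ENNReal.ofReal_le_ofReal (density_ge hp))
      _ ≤ ∫⁻ p in U0, ENNReal.ofReal (|gaussK X p| * Real.sqrt (detI X p)) :=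
          lintegral_mono_set Sec_subset
  have h2 : ∫⁻ p, h p = ⊤ := by
    rw [Measure.volume_eq_prod, lintegral_prod _ hm.aemeasurable]
    have h3 : ∀ s ∈ Ioi (1 : ℝ), ∫⁻ t, h (s, t) = ENNReal.ofReal (1 / 360) * ENNReal.ofReal s⁻¹ := by
      intro s hs
      have hs1 : (1 : ℝ) < s := hs
      have hs0 : (0 : ℝ) < s := lt_trans one_pos hs
      have e : (fun t => h (s, t)) = (Icc 0 (s / 10)).indicator
          (fun _ => ENNReal.ofReal (1 / (36 * s ^ 2))) := by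
        funext t
        by_cases ht : t ∈ Icc 0 (s / 10)
        · rw [indicator_of_mem ht, hh, indicator_of_mem]
          exact ⟨hs1.le, ht.1, ht.2⟩
        · rw [indicator_of_notMem ht, hh, indicator_of_notMem]
          rintro ⟨_, h5, h6⟩
          exact ht ⟨h5, h6⟩
      rw [e, lintegral_indicator measurableSet_Icc, setLIntegral_const, Real.volume_Icc,
        ← ENNReal.ofReal_mul (by positivity), ← ENNReal.ofReal_mul (by positivity)]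
      congr 1
      field_simp
      ring
    refine top_le_iff.1 ?_
    calc (⊤ : ENNReal) = ∫⁻ s in Ioi (1 : ℝ), ENNReal.ofReal (1 / 360) * ENNReal.ofReal s⁻¹ := by
          rw [lintegral_const_mul _ (by fun_prop), lintegral_inv_top, ENNReal.mul_top]
          simp
      _ = ∫⁻ s in Ioi (1 : ℝ), ∫⁻ t, h (s, t) :=
          (setLIntegral_congr_fun measurableSet_Ioi (fun s hs => (h3 s hs).symm))
      _ ≤ ∫⁻ s, ∫⁻ t, h (s, t) := setLIntegral_le_lintegral _ _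
  rw [h2] at h1
  exact top_le_iff.1 h1

open Module in
theorem isCompactMinus_U0 : IsCompactMinus U0 2 := by
  classical
  have : Fact (finrank ℝ (EuclideanSpace ℝ (Fin 3)) = 2 + 1) := ⟨by simp⟩
  have hr : 1 < Module.rank ℝ (EuclideanSpace ℝ (Fin 3)) := by
    rw [← finrank_eq_rank]
    simp
  have hconn := isConnected_sphere hr 0 zero_le_one
  obtain ⟨v⟩ : Nonempty (Metric.sphere (0 : EuclideanSpace ℝ (Fin 3)) 1) :=
    hconn.nonempty.to_subtype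
  set e := stereographic' (E := EuclideanSpace ℝ (Fin 3)) 2 v with he
  set w := e.symm 0 with hw
  have hsrc : e.source = {v}ᶜ := stereographic'_source v
  have htgt : e.target = univ := stereographic'_target v
  have hwv : w ≠ v := by
    have : w ∈ e.source := e.map_target (by rw [htgt]; exact mem_univ _)
    rw [hsrc] at this
    exact this
  let φ : (ℝ × ℝ) ≃L[ℝ] EuclideanSpace ℝ (Fin 2) :=
    (ContinuousLinearEquiv.finTwoArrow ℝ ℝ).symm.trans (EuclideanSpace.equiv (Fin 2) ℝ).symm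
  have hsymm_cont : Continuous e.symm := by
    rw [← continuousOn_univ, ← htgt]
    exact e.continuousOn_symm
  refine ⟨Metric.sphere (0 : EuclideanSpace ℝ (Fin 3)) 1, inferInstance, inferInstance,
    inferInstance, Subtype.connectedSpace hconn, ⟨inferInstance⟩, {v, w}, ?_, ⟨?_⟩⟩
  · rw [Finset.card_pair hwv.symm]
  · exact {
      toFun := fun p => ⟨e.symm (φ p), by
        have hne : φ (p : ℝ × ℝ) ≠ 0 := by
          intro h
          exact p.2 (by simpa using h)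
        simp only [Finset.mem_insert, Finset.mem_singleton, not_or]
        constructor
        · have : e.symm (φ (p : ℝ × ℝ)) ∈ e.source :=
            e.map_target (by rw [htgt]; exact mem_univ _)
          rw [hsrc] at this
          exact this
        · intro h
          have h2 : e (e.symm (φ (p : ℝ × ℝ))) = e (e.symm 0) := by rw [h]
          rw [e.right_inv (by rw [htgt]; exact mem_univ _),
            e.right_inv (by rw [htgt]; exact mem_univ _)] at h2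
          exact hne h2⟩
      invFun := fun y => ⟨φ.symm (e y), by
        intro h
        have h1 : e (y : Metric.sphere (0 : EuclideanSpace ℝ (Fin 3)) 1) = 0 := by
          have := congrArg φ h
          simpa using this
        have hy := y.2
        simp only [Finset.mem_insert, Finset.mem_singleton, not_or] at hy
        have h2 : e.symm (e (y : Metric.sphere (0 : EuclideanSpace ℝ (Fin 3)) 1)) = y :=
          e.left_inv (by rw [hsrc]; exact hy.1)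
        rw [h1] at h2
        exact hy.2 h2.symm⟩
      left_inv := by
        intro p
        apply Subtype.ext
        simp only
        rw [e.right_inv (by rw [htgt]; exact mem_univ _)]
        simp
      right_inv := by
        intro y
        apply Subtype.ext
        have hy := y.2
        simp only [Finset.mem_insert, Finset.mem_singleton, not_or] at hy
        simp only [ContinuousLinearEquiv.apply_symm_apply]
        rw [e.left_inv]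
        rw [hsrc]
        exact hy.1
      continuous_toFun := by
        apply Continuous.subtype_mk
        exact hsymm_cont.comp (φ.continuous.comp continuous_subtype_val)
      continuous_invFun := by
        apply Continuous.subtype_mk
        apply φ.symm.continuous.comp
        refine e.continuousOn.comp_continuous continuous_subtype_val ?_
        intro y
        have hy := y.2
        simp only [Finset.mem_insert, Finset.mem_singleton, not_or] at hy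
        rw [hsrc]
        exact hy.1 }

end Pool.Agent.Helper86.Stationary
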